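import Pool.Agent.W599.DSN.Stm

/-!
Project DSN, part GEN: generic small right hand sides, by Hausdorff dimension.
-/

set_option autoImplicit false

namespace Pool.Agent.W320.DSN

open MvPolynomial

theorem contDiff_ev {V : ℕ} (p : MvPolynomial (Fin V) ℝ) :
    ContDiff ℝ 1 (fun z : Fin V → ℝ => eval z p) := by
  induction p using MvPolynomial.induction_on with
  | C a => simpa using contDiff_const
  | add p q hp hq => simpa using hp.add hq
  | mul_X p i hp => simpa using hp.mul (contDiff_apply ℝ ℝ i)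

/-- the parametrisation of the bad right hand sides -/
noncomputable def G {V : ℕ} {κ : Type} [DecidableEq κ] (F : κ → MvPolynomial (Fin V) ℝ)
    (s : κ → ℝ) (S : Finset κ) (p : (Fin V → ℝ) × ({o : κ // o ∉ S} → ℝ)) : κ → ℝ :=
  fun o => if h : o ∉ S then p.2 ⟨o, h⟩ else s o * eval p.1 (F o)

theorem contDiff_G {V : ℕ} {κ : Type} [Fintype κ] [DecidableEq κ]
    (F : κ → MvPolynomial (Fin V) ℝ) (s : κ → ℝ) (S : Finset κ) : ContDiff ℝ 1 (G F s S) := by
  rw [contDiff_pi]
  intro o
  unfold G
  by_cases h : o ∉ S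
  · simp only [dif_pos h]
    exact (contDiff_apply ℝ ℝ (⟨o, h⟩ : {o : κ // o ∉ S})).comp contDiff_snd
  · simp only [dif_neg h]
    exact contDiff_const.mul ((contDiff_ev (F o)).comp contDiff_fst)

theorem dim_G {V : ℕ} {κ : Type} [Fintype κ] [DecidableEq κ]
    (F : κ → MvPolynomial (Fin V) ℝ) (s : κ → ℝ) (S : Finset κ) (hS : V < S.card) :
    dimH (Set.range (G F s S)) ≤ ((Fintype.card κ - 1 : ℕ) : ENNReal) := by
  refine (contDiff_G F s S).dimH_range_le.trans ?_
  have h1 : Module.finrank ℝ ((Fin V → ℝ) × ({o : κ // o ∉ S} → ℝ)) = V + (Fintype.card κ - S.card) := by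
    rw [Module.finrank_prod, Module.finrank_fintype_fun_eq_card,
      Module.finrank_fintype_fun_eq_card, Fintype.card_fin]
    congr 1
    rw [Fintype.card_subtype_compl (fun o => o ∈ S), Fintype.card_coe]
  rw [h1]
  have h2 := S.card_le_univ
  exact_mod_cast (by omega : V + (Fintype.card κ - S.card) ≤ Fintype.card κ - 1)

theorem gen : Pool.Agent.W599.DSN.GEN := by
  intro V κ _ _ F e0 he0
  by_cases hκ : Fintype.card κ = 0
  · haveI := Fintype.card_eq_zero_iff.1 hκ
    exact ⟨fun _ => e0 / 2, fun o => (IsEmpty.false o).elim, fun s hs S hS => by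
      have := S.card_le_univ; omega⟩
  · let I := {p : (κ → Bool) × Finset κ // V < p.2.card}
    let B : Set (κ → ℝ) := ⋃ i : I, Set.range (G F (fun o => if i.1.1 o then 1 else -1) i.1.2)
    have hB : dimH B < Module.finrank ℝ (κ → ℝ) := by
      have h1 : dimH B ≤ ((Fintype.card κ - 1 : ℕ) : ENNReal) := by
        show dimH (⋃ i : I, Set.range (G F (fun o => if i.1.1 o then 1 else -1) i.1.2)) ≤ _
        rw [dimH_iUnion]
        exact iSup_le fun i => dim_G F _ _ i.2
      refine h1.trans_lt ?_
      rw [Module.finrank_fintype_fun_eq_card]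
      exact_mod_cast (by omega : Fintype.card κ - 1 < Fintype.card κ)
    have hd := dense_compl_of_dimH_lt_finrank hB
    have ho : IsOpen (Set.pi Set.univ (fun _ : κ => Set.Ioo (0 : ℝ) e0)) :=
      isOpen_set_pi Set.finite_univ (fun _ _ => isOpen_Ioo)
    have hne : (Set.pi Set.univ (fun _ : κ => Set.Ioo (0 : ℝ) e0)).Nonempty :=
      ⟨fun _ => e0 / 2, fun _ _ => ⟨by simp only; linarith, by simp only; linarith⟩⟩
    obtain ⟨e, he, heB⟩ := hd.inter_open_nonempty _ ho hne
    refine ⟨e, fun o => he o (Set.mem_univ o), ?_⟩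
    intro s hs S hS
    rintro ⟨z, hz⟩
    apply heB
    refine Set.mem_iUnion.2 ⟨⟨(fun o => decide (s o = 1), S), hS⟩, (z, fun o => e o.1), ?_⟩
    have hs' : (fun o => if decide (s o = 1) = true then (1 : ℝ) else -1) = s := by
      funext o
      rcases hs o with h | h
      · simp [h]
      · rw [h]; norm_num
    show G F (fun o => if decide (s o = 1) = true then (1 : ℝ) else -1) S _ = e
    rw [hs']
    funext o
    unfold G
    by_cases h : o ∉ S
    · rw [dif_pos h]
    · rw [dif_neg h]
      exact hz o (not_not.1 h)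

end Pool.Agent.W320.DSN
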